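import Pool.Agent.Lib.NilU.LemmaQ

/-!
# Theorem N (MP_16fe43_al): vanishing of the classes of nilpotent matrices

`LAP`: the located form of the approximation property of the kernels.
-/

set_option autoImplicit false

universe u v w

namespace Pool.Agent.Lib.NilU

open Pool.Agent.Lib.MP_16fe43_al Pool.Agent.Lib.SRG
open MulAction (stabilizer)
open Matrix (fromBlocks fromRows fromCols vecMul)

variable {G : Type u} [Group G] {X : Type w} [MulAction G X]

/-- The located form of the approximation property: the submodule generated by finitely many located vectors killed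
by `M` maps to a module with a finite located resolution, and this module maps to the kernel of `M`. -/
def LAP (G : Type u) [Group G] {X : Type w} [MulAction G X] (Q : X → Prop) : Prop :=
  ∀ (I J L : Type u) [Fintype I] [DecidableEq I] [Fintype J] [Fintype L] [DecidableEq L]
    (x : I → X), (∀ i, Q (x i)) → ∀ (M : Matrix I J (MonoidAlgebra ℤ G)) (l : L → X),
      (∀ i, Q (l i)) → ∀ (E : Matrix L I (MonoidAlgebra ℤ G)), Moves (fun a b => b = a) l x E →
        E * M = 0 →
    ∃ (P : Type u) (_ : Fintype P) (_ : DecidableEq P) (p : P → X)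
      (Pr : Matrix P I (MonoidAlgebra ℤ G)) (T : Matrix L P (MonoidAlgebra ℤ G)) (K : Type u)
      (_ : Fintype K) (_ : DecidableEq K) (z : K → X) (B : Matrix K P (MonoidAlgebra ℤ G)) (k : ℕ),
      (∀ i, Q (p i)) ∧ (∀ i, Q (z i)) ∧ Moves (fun a b => b = a) p x Pr ∧
      Moves (fun a b => b = a) l p T ∧ Moves (fun a b => b = a) z p B ∧ E = T * Pr ∧ Pr * M = 0 ∧
      B * Pr = 0 ∧ LRq G Q k K P z B ∧
      ∀ v : L → MonoidAlgebra ℤ G, vecMul v E = 0 → ∃ w : K → MonoidAlgebra ℤ G,
        vecMul v T = vecMul w B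

theorem lrq_congr {Q : X → Prop} {k : ℕ} {I J J' : Type u} [Fintype I] [DecidableEq I]
    {x : I → X} {A : Matrix I J (MonoidAlgebra ℤ G)} {A' : Matrix I J' (MonoidAlgebra ℤ G)}
    (h : ∀ v : I → MonoidAlgebra ℤ G, vecMul v A = 0 ↔ vecMul v A' = 0)
    (h' : LRq G Q k I J x A) : LRq G Q k I J' x A' := by
  cases k with
  | zero => exact fun v hv => h' v ((h v).2 hv)
  | succ k =>
    obtain ⟨K, _, _, z, B, hz, hB, hex, hres⟩ := h'
    exact ⟨K, _, _, z, B, hz, hB, fun v => (h v).symm.trans (hex v), hres⟩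

/-- **Lemma Q** -/
theorem lemmaQ {Q : X → Prop} (hQ : ∀ (g : G) (z : X), Q z → Q (g • z)) {r : X → X → Prop}
    (hr : RInv G r) (hU : UWP r) {n : ℕ} (hS : SN (G := G) Q r (n + 1)) (k : ℕ) :
    ∀ (I K : Type u) [Fintype I] [DecidableEq I] [Fintype K] [DecidableEq K] (x : I → X)
      (_ : ∀ i, Q (x i)) (z : K → X) (_ : ∀ i, Q (z i)) (B : Matrix K I (MonoidAlgebra ℤ G))
      (_ : Moves (fun a b => b = a) z x B) (φ : Matrix I I (MonoidAlgebra ℤ G))
      (_ : Moves r x x φ), B * φ = 0 → Rows B (φ ^ (n + 1)) → LRq G Q k K I z B →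
        cm (1 - φ) = 0 := by
  induction k with
  | zero =>
    intro I K _ _ _ _ x hx z hz B hB φ hφ h1 h2 h3
    obtain ⟨F, _, _, f, B1, h, hf, hm, hker, hpow, himp⟩ :=
      step hQ hr hU hS x hx z hz B hB φ hφ h1 h2
    refine himp (hS (K ⊕ F) (Sum.elim z f) ?_ _ hm ?_)
    · rintro (i | i)
      · exact hz i
      · exact hf i
    · funext i
      have h4 : vecMul (((B1 * h) ^ (n + 1)) i) B1 = 0 := by
        rw [← Matrix.mul_apply_eq_vecMul, hpow]
        rfl
      obtain ⟨h5, h6⟩ := (hker _).1 h4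
      have h7 := h3 _ h5
      funext j
      rcases j with j | j
      · exact congrFun h7 j
      · exact congrFun h6 j
  | succ k ih =>
    intro I K _ _ _ _ x hx z hz B hB φ hφ h1 h2 h3
    obtain ⟨F, _, _, f, B1, h, hf, hm, hker, hpow, himp⟩ :=
      step hQ hr hU hS x hx z hz B hB φ hφ h1 h2
    obtain ⟨K2, _, _, z2, B2, hz2, hB2, hex, hres⟩ := h3
    have hB2v : ∀ t : K2 → MonoidAlgebra ℤ G,
        vecMul t (fromCols B2 (0 : Matrix K2 F (MonoidAlgebra ℤ G))) =
          Sum.elim (vecMul t B2) 0 := by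
      intro t
      rw [Matrix.vecMul_fromCols, Matrix.vecMul_zero]
    have hB2B1 : fromCols B2 (0 : Matrix K2 F (MonoidAlgebra ℤ G)) * B1 = 0 := by
      funext i
      rw [Matrix.mul_apply_eq_vecMul]
      refine (hker _).2 ⟨?_, ?_⟩
      · show vecMul (B2 i) B = 0
        exact (hex _).2 ⟨Pi.single i 1, by rw [Matrix.single_one_vecMul]; rfl⟩
      · rfl
    refine himp (ih (K ⊕ F) K2 (Sum.elim z f) ?_ z2 hz2 (fromCols B2 0)
      (moves_fromCols hB2 (moves_zero _ _ _)) (B1 * h) hm ?_ ?_ ?_)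
    · rintro (i | i)
      · exact hz i
      · exact hf i
    · rw [← Matrix.mul_assoc, hB2B1, Matrix.zero_mul]
    · have h4 : ∀ i, ∃ w : K2 → MonoidAlgebra ℤ G, ((B1 * h) ^ (n + 1)) i =
          vecMul w (fromCols B2 (0 : Matrix K2 F (MonoidAlgebra ℤ G))) := by
        intro i
        have h4 : vecMul (((B1 * h) ^ (n + 1)) i) B1 = 0 := by
          rw [← Matrix.mul_apply_eq_vecMul, hpow]
          rfl
        obtain ⟨h5, h6⟩ := (hker _).1 h4
        obtain ⟨t, ht⟩ := (hex _).1 h5
        refine ⟨t, ?_⟩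
        rw [hB2v, ← ht, ← h6]
        exact (Sum.elim_comp_inl_inr _).symm
      choose w hw using h4
      refine ⟨Matrix.of w, ?_⟩
      funext i
      rw [Matrix.mul_apply_eq_vecMul]
      exact hw i
    · refine lrq_congr (fun t => ?_) hres
      rw [hB2v]
      constructor
      · intro h4
        rw [h4]
        funext i
        rcases i with i | i <;> rfl
      · intro h4
        funext i
        exact congrFun h4 (Sum.inl i)

/-- the induction on the degree of nilpotency -/
theorem sn_all {Q : X → Prop} (hQ : ∀ (g : G) (z : X), Q z → Q (g • z)) (hL : LAP G Q)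
    {r : X → X → Prop} (hr : RInv G r) (hU : UWP r) (n : ℕ) : SN (G := G) Q r (n + 1) := by
  classical
  induction n with
  | zero =>
    intro I _ _ x _ N _ h
    rw [zero_add, pow_one] at h
    rw [h, sub_zero, cm_one]
  | succ n ih =>
    intro I _ _ x hx N hN h
    obtain ⟨L, _, _, l, E, θ, hl, hE, hθ, hNE, hEN⟩ := exists_plus hr hU x N hN x
      (1 : Matrix I I (MonoidAlgebra ℤ G)) (moves_one x fun a => rfl) (n + 1)
      (by rw [Matrix.one_mul]; exact h)
    rw [Matrix.one_mul] at hNE
    obtain ⟨P, _, _, p, Pr, T, K, _, _, z, B, k, hp, hz, hPr, hT, hB, hET, hPrM, hBPr, hres, hsec⟩ :=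
      hL I I L x hx (N ^ (n + 1)) l (fun i => by
        obtain ⟨g, j, hj⟩ := hl i
        rw [hj]
        exact hQ g _ (hx j)) E hE hEN
    let g : Matrix I P (MonoidAlgebra ℤ G) := θ * T
    have hg : Moves r x p g := hθ.mul rInv_eq hT fun a b t h1 h2 => by
      have h2' : t = b := h2
      rwa [h2']
    have hNg : N = g * Pr := by
      show N = θ * T * Pr
      rw [Matrix.mul_assoc, ← hET]
      exact hNE
    have hφ : Moves r p p (Pr * g) := hPr.mul hr hg fun a b t h1 h2 => by
      have h1' : b = a := h1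
      rwa [← h1']
    have h1 : cm (1 - N) = cm (1 - Pr * g) := by
      rw [hNg]
      exact cm_one_sub_mul_comm g Pr
    rw [h1]
    refine lemmaQ hQ hr hU ih k P K p hp z hz B hB (Pr * g) hφ ?_ ?_ hres
    · rw [← Matrix.mul_assoc, hBPr, Matrix.zero_mul]
    · have h2 : ∀ j : ℕ, (Pr * g) ^ (j + 1) = Pr * N ^ j * θ * T := by
        intro j
        induction j with
        | zero =>
          rw [zero_add, pow_one, pow_zero, Matrix.mul_one, Matrix.mul_assoc]
        | succ j ihj =>
          have h5 : Pr * g * (Pr * N ^ j * θ * T) = Pr * (g * Pr) * N ^ j * θ * T := by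
            simp only [Matrix.mul_assoc]
          rw [pow_succ' (Pr * g) (j + 1), ihj, h5, ← hNg, pow_succ' N j]
          simp only [Matrix.mul_assoc]
      rw [h2 n]
      have h3 : Pr * N ^ n * θ * E = 0 := by
        rw [Matrix.mul_assoc, ← hNE, Matrix.mul_assoc, ← pow_succ, hPrM]
      have h4 : ∀ i, ∃ w : K → MonoidAlgebra ℤ G, vecMul ((Pr * N ^ n * θ) i) T = vecMul w B := by
        intro i
        refine hsec _ ?_
        rw [← Matrix.mul_apply_eq_vecMul, h3]
        rfl
      choose w hw using h4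
      refine ⟨Matrix.of w, ?_⟩
      funext i
      rw [Matrix.mul_apply_eq_vecMul, Matrix.mul_apply_eq_vecMul]
      exact hw i

/-- **Theorem N** -/
theorem base_zero_lap {Q : X → Prop} (hQ : ∀ (g : G) (z : X), Q z → Q (g • z)) (hL : LAP G Q)
    {r : X → X → Prop} (hr : RInv G r) (hU : UWP r) {I : Type u} [Fintype I] [DecidableEq I]
    (x : I → X) (hx : ∀ i, Q (x i)) (N : Matrix I I (MonoidAlgebra ℤ G))
    (hN : Moves r x x N) (hnil : ∃ M, N ^ M = 0) : cm (1 - N) = 0 := by
  obtain ⟨M, hM⟩ := hnil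
  refine sn_all hQ hL hr hU M I x hx N hN ?_
  rw [pow_succ, hM, Matrix.zero_mul]

end Pool.Agent.Lib.NilU
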