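import Pool.Agent.Lib.SRG.Hs
import Pool.Agent.Lib.MP_16fe43_al.TreeR4

/-!
# Covers by strictly nilpotent endomorphisms (MP_16fe43_al, Theorem N)

`Rows B A`: the rows of `A` are combinations of the rows of `B`.
-/

set_option autoImplicit false

universe u v w

namespace Pool.Agent.Lib.NilU

open Pool.Agent.Lib.MP_16fe43_al Pool.Agent.Lib.SRG
open MulAction (stabilizer)
open Matrix (fromBlocks fromRows fromCols vecMul)

/-- the rows of `A` are combinations of the rows of `B` -/
def Rows {R : Type*} [Ring R] {K J L : Type*} [Fintype K] (B : Matrix K J R)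
    (A : Matrix L J R) : Prop := ∃ w : Matrix L K R, A = w * B

section rows

variable {R : Type*} [Ring R] {K J L M : Type*} [Fintype K] {B : Matrix K J R}

theorem Rows.zero : Rows B (0 : Matrix L J R) := ⟨0, (Matrix.zero_mul B).symm⟩

theorem Rows.add {A A' : Matrix L J R} (h : Rows B A) (h' : Rows B A') : Rows B (A + A') := by
  obtain ⟨w, rfl⟩ := h
  obtain ⟨w', rfl⟩ := h'
  exact ⟨w + w', (Matrix.add_mul _ _ _).symm⟩

theorem Rows.neg {A : Matrix L J R} (h : Rows B A) : Rows B (-A) := by
  obtain ⟨w, rfl⟩ := h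
  exact ⟨-w, (Matrix.neg_mul _ _).symm⟩

theorem Rows.sub {A A' : Matrix L J R} (h : Rows B A) (h' : Rows B A') : Rows B (A - A') := by
  rw [sub_eq_add_neg]
  exact h.add h'.neg

theorem Rows.left [Fintype L] {A : Matrix L J R} (h : Rows B A) (X : Matrix M L R) :
    Rows B (X * A) := by
  obtain ⟨w, rfl⟩ := h
  exact ⟨X * w, (Matrix.mul_assoc _ _ _).symm⟩

theorem Rows.self [DecidableEq K] : Rows B B := ⟨1, (Matrix.one_mul B).symm⟩

end rows

variable {G : Type u} [Group G] {X : Type w} [MulAction G X]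

/-- located resolution with a condition on the locations -/
def LRq (G : Type u) [Group G] {X : Type w} [MulAction G X] (Q : X → Prop) : ℕ → (I J : Type u) →
    [Fintype I] → [DecidableEq I] → (I → X) → Matrix I J (MonoidAlgebra ℤ G) → Prop
  | 0, I, _, _, _, _, A => ∀ v : I → MonoidAlgebra ℤ G, vecMul v A = 0 → v = 0
  | k + 1, I, _, _, _, x, A =>
      ∃ (K : Type u) (_ : Fintype K) (_ : DecidableEq K) (z : K → X)
        (B : Matrix K I (MonoidAlgebra ℤ G)), (∀ k, Q (z k)) ∧
        Moves (fun a b => b = a) z x B ∧ RowExact B A ∧ LRq G Q k K I z B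

/-- components, modulo the rows of a located matrix -/
theorem plus {r : X → X → Prop} (hr : RInv G r) (hU : UWP r) {I : Type u} [Fintype I]
    [DecidableEq I] (x : I → X) (N : Matrix I I (MonoidAlgebra ℤ G)) (hN : Moves r x x N)
    {L : Type u} [Fintype L] [DecidableEq L] (l : L → X) (lam : Matrix L I (MonoidAlgebra ℤ G))
    (hlam : Moves (fun a b => b = a) l x lam) {K : Type u} [Fintype K] [DecidableEq K]
    (z : K → X) (B : Matrix K I (MonoidAlgebra ℤ G)) (hB : Moves (fun a b => b = a) z x B)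
    (n : ℕ) (h : Rows B (lam * N ^ (n + 1))) :
    ∃ (L' : Type u) (_ : Fintype L') (_ : DecidableEq L') (l' : L' → X)
      (lam' : Matrix L' I (MonoidAlgebra ℤ G)) (θ : Matrix L L' (MonoidAlgebra ℤ G)),
      (∀ i, ∃ (g : G) (j : I), l' i = g • x j) ∧ Moves (fun a b => b = a) l' x lam' ∧
      Moves r l l' θ ∧ lam * N = θ * lam' ∧ Rows B (lam' * N ^ n) := by
  classical
  have hmov : Moves r l x (lam * N) := hlam.mul hr hN (fun a b t h1 h2 => by
    have h1' : b = a := h1
    rwa [← h1'])
  let L' : Type u := (i : L) × (j : I) × ((lam * N) i j).coeff.support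
  let l' : L' → X := fun p => (p.2.2 : G) • x p.2.1
  let M : Matrix L' I (MonoidAlgebra ℤ G) := fun p j => (lam * N) p.1 j
  let lam' : Matrix L' I (MonoidAlgebra ℤ G) := res (fun a b => b = a) l' x M
  have hl'r : ∀ p : L', r (l p.1) (l' p) := by
    intro p
    exact hmov p.1 p.2.1 p.2.2 (Finsupp.mem_support_iff.1 p.2.2.2)
  have hlocated : Moves (fun a b => b = a) l' x lam' := moves_res _ _ _ _
  obtain ⟨θ, hθ, hθ'⟩ := exists_located_lift (I := L') hr hmov hlocated (by
    intro i
    let Z : Finset X := (Finset.univ.filter (fun p : L' => p.1 = i)).image l'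
    have hsec : ∀ z : X, ∃ p : Option L', (z ∈ Z → ∃ q, p = some q ∧ q.1 = i ∧ l' q = z) := by
      intro z
      by_cases hz : z ∈ Z
      · obtain ⟨q, hq, hq'⟩ := Finset.mem_image.1 hz
        exact ⟨some q, fun _ => ⟨q, rfl, (Finset.mem_filter.1 hq).2, hq'⟩⟩
      · exact ⟨none, fun h => absurd h hz⟩
    choose sec hsec using hsec
    let T : Finset L' := Finset.univ.filter (fun p : L' => p.1 = i ∧ sec (l' p) = some p)
    refine ⟨fun p => if p ∈ T then 1 else 0, ?_⟩
    funext j
    apply MonoidAlgebra.coeff_injective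
    ext g
    have h1 : vecMul (fun p => if p ∈ T then (1 : MonoidAlgebra ℤ G) else 0) lam' j =
        ∑ p ∈ T, lam' p j := by
      show ∑ p, (if p ∈ T then (1 : MonoidAlgebra ℤ G) else 0) * lam' p j = _
      simp only [ite_mul, one_mul, zero_mul, Finset.sum_ite_mem, Finset.univ_inter]
    rw [h1, MonoidAlgebra.coeff_sum, Finsupp.finsetSum_apply]
    by_cases hc : ((lam * N) i j).coeff g = 0
    · rw [hc]
      symm
      refine Finset.sum_eq_zero fun p hp => ?_
      have hp1 : p.1 = i := (Finset.mem_filter.1 hp).2.1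
      show (res (fun a b => b = a) l' x M p j).coeff g = 0
      rw [res_coeff]
      have : (M p j).coeff g = 0 := by
        show ((lam * N) p.1 j).coeff g = 0
        rw [hp1]
        exact hc
      rw [this, ite_self]
    · let p0 : L' := ⟨i, j, ⟨g, Finsupp.mem_support_iff.2 hc⟩⟩
      have hz : l' p0 ∈ Z := Finset.mem_image.2 ⟨p0, by simp [p0], rfl⟩
      obtain ⟨q, hq, hq1, hq2⟩ := hsec (l' p0) hz
      have hqT : q ∈ T := by
        refine Finset.mem_filter.2 ⟨Finset.mem_univ _, hq1, ?_⟩
        rw [hq2]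
        exact hq
      rw [Finset.sum_eq_single_of_mem q hqT]
      · show _ = (res (fun a b => b = a) l' x M q j).coeff g
        rw [res_coeff_pos M (c := fun a b => b = a) (by exact hq2.symm)]
        show _ = ((lam * N) q.1 j).coeff g
        rw [hq1]
      · intro p hp hpq
        have hp1 := (Finset.mem_filter.1 hp).2
        show (res (fun a b => b = a) l' x M p j).coeff g = 0
        refine res_coeff_neg M (c := fun a b => b = a) ?_
        intro h2
        have h2' : l' p0 = l' p := h2
        apply hpq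
        have h3 := hp1.2
        rw [← h2', hq] at h3
        exact (Option.some.inj h3).symm)
  refine ⟨L', inferInstance, inferInstance, l', lam', θ, fun p => ⟨p.2.2, p.2.1, rfl⟩, hlocated,
    hθ, hθ', ?_⟩
  -- the components modulo the rows of `B`
  obtain ⟨w, hw⟩ := h
  let W0 : Matrix L' K (MonoidAlgebra ℤ G) := fun p k => w p.1 k
  have hMN : M * N ^ n = W0 * B := by
    refine Matrix.ext fun p k => ?_
    have h1 : (M * N ^ n) p k = ((lam * N) * N ^ n) p.1 k := rfl
    rw [h1, Matrix.mul_assoc, ← pow_succ', hw]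
    rfl
  let y : L' → X × X := fun p => (l p.1, l' p)
  have hMmov : Moves (fun (a : X × X) b => r a.1 b ∧ r a.1 a.2) y x M := by
    intro p j g hg
    exact ⟨hmov p.1 j g hg, hl'r p⟩
  have key := res_mul_of (c1 := fun (a : X × X) b => b = a.2)
    (e := fun (a : X × X) t => Wk r n a.2 t) hMmov (rInv_wk hr n) (hN.pow hr n)
    (fun a b t h1 h2 => by
      constructor
      · intro h3
        rw [← h3]
        exact h2
      · intro h3
        exact hU.step n n a.1 b a.2 t h1.1 h1.2 h2 h3)
  have key2 := res_mul_of (c := fun _ _ => True) (c1 := fun (a : X × X) t => Wk r n a.2 t)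
    (d := fun (a b : X) => b = a) (e := fun (a : X × X) t => Wk r n a.2 t) (x := y) (y := z)
    (z := x) (M := W0) (N := B) (fun _ _ _ _ => trivial) rInv_eq hB
    (fun a b t _ h2 => by
      have h2' : t = b := h2
      rw [h2'])
  rw [hMN, ← key2] at key
  exact ⟨_, key⟩

/-- **the cover** -/
theorem cover {r : X → X → Prop} (hr : RInv G r) (hU : UWP r) {Q : X → Prop}
    (hQ : ∀ (g : G) (z : X), Q z → Q (g • z)) {I : Type u} [Fintype I]
    [DecidableEq I] (x : I → X) (hx : ∀ i, Q (x i)) (N : Matrix I I (MonoidAlgebra ℤ G))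
    (hN : Moves r x x N) {K : Type u} [Fintype K] [DecidableEq K]
    (z : K → X) (B : Matrix K I (MonoidAlgebra ℤ G)) (hB : Moves (fun a b => b = a) z x B)
    (m : ℕ) : ∀ {L : Type u} [Fintype L] [DecidableEq L] (l : L → X)
      (lam : Matrix L I (MonoidAlgebra ℤ G)), Moves (fun a b => b = a) l x lam →
      Rows B (lam * N ^ (m + 1)) →
    ∃ (F : Type u) (_ : Fintype F) (_ : DecidableEq F) (f : F → X)
      (Lam : Matrix F I (MonoidAlgebra ℤ G)) (ν : Matrix F F (MonoidAlgebra ℤ G))
      (θ : Matrix L F (MonoidAlgebra ℤ G)), (∀ i, Q (f i)) ∧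
      Moves (fun a b => b = a) f x Lam ∧ Moves r f f ν ∧ Moves r l f θ ∧
      Rows B (lam * N - θ * Lam) ∧ Rows B (ν * Lam - Lam * N) ∧ ν ^ m = 0 := by
  classical
  induction m with
  | zero =>
    intro L _ _ l lam hlam h
    rw [zero_add, pow_one] at h
    refine ⟨PEmpty, inferInstance, inferInstance, PEmpty.elim, 0, 0, 0, fun i => i.elim,
      fun i => i.elim, fun i => i.elim, fun i j => j.elim, ?_, ?_, Matrix.ext fun i => i.elim⟩
    · have h1 : (0 : Matrix L PEmpty.{u+1} (MonoidAlgebra ℤ G)) *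
          (0 : Matrix PEmpty.{u+1} I (MonoidAlgebra ℤ G)) = 0 := by
        funext i j
        simp [Matrix.mul_apply]
      rw [h1, sub_zero]
      exact h
    · exact ⟨0, Matrix.ext fun i => i.elim⟩
  | succ m ih =>
    intro L _ _ l lam hlam h
    obtain ⟨L1, _, _, l1, lam1, θ1, hl1, hlam1, hθ1, h1, h2⟩ :=
      plus hr hU x N hN l lam hlam z B hB (m + 1) h
    obtain ⟨F, _, _, f, Lam, ν, θ, hf, hLam, hν, hθ, h3, h4, h5⟩ := ih l1 lam1 hlam1 h2
    refine ⟨L1 ⊕ F, inferInstance, inferInstance, Sum.elim l1 f, fromRows lam1 Lam,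
      fromBlocks 0 θ 0 ν, fromCols θ1 0, ?_, moves_fromRows hlam1 hLam, ?_, ?_, ?_, ?_, ?_⟩
    · rintro (i | i)
      · obtain ⟨g, j, hj⟩ := hl1 i
        show Q (l1 i)
        rw [hj]
        exact hQ g _ (hx j)
      · exact hf i
    · rintro (i | i) (j | j) g hg
      · exact absurd rfl hg
      · exact hθ i j g hg
      · exact absurd rfl hg
      · exact hν i j g hg
    · rintro i (j | j) g hg
      · exact hθ1 i j g hg
      · exact absurd rfl hg
    · rw [Matrix.fromCols_mul_fromRows, Matrix.zero_mul, add_zero, ← h1, sub_self]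
      exact Rows.zero
    · rw [Matrix.fromBlocks_mul_fromRows, Matrix.fromRows_mul, Matrix.zero_mul, Matrix.zero_mul,
        zero_add, zero_add]
      obtain ⟨w3, hw3⟩ := h3
      obtain ⟨w4, hw4⟩ := h4
      refine ⟨fromRows (-w3) w4, ?_⟩
      rw [Matrix.fromRows_mul, Matrix.neg_mul, ← hw3, ← hw4]
      funext i
      rcases i with i | i
      · show (θ * Lam) i - (lam1 * N) i = (-(lam1 * N - θ * Lam)) i
        rw [neg_sub]
        rfl
      · rfl
    · have h6 : ∀ j : ℕ, fromBlocks (0 : Matrix L1 L1 (MonoidAlgebra ℤ G)) θ 0 ν ^ (j + 1) =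
          fromBlocks 0 (θ * ν ^ j) 0 (ν ^ (j + 1)) := by
        intro j
        induction j with
        | zero => rw [zero_add, pow_one, pow_one, pow_zero, Matrix.mul_one]
        | succ j ih =>
          rw [pow_succ, ih, Matrix.fromBlocks_multiply]
          simp only [Matrix.zero_mul, Matrix.mul_zero, zero_add, add_zero]
          rw [Matrix.mul_assoc, ← pow_succ, ← pow_succ]
      rw [h6, h5, Matrix.mul_zero, pow_succ, h5, Matrix.zero_mul, Matrix.fromBlocks_zero]

end Pool.Agent.Lib.NilU
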