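import Pool.Agent.Lib.NilU.Cover

/-!
# Lemma Q (MP_16fe43_al, Theorem N)

An endomorphism of a module with a finite located resolution, the `n`-th power of which vanishes, is of class zero
if the class of `1 - N` vanishes for all located nilpotent matrices with `N ^ n = 0`.
-/

set_option autoImplicit false

universe u v w

namespace Pool.Agent.Lib.NilU

open Pool.Agent.Lib.MP_16fe43_al Pool.Agent.Lib.SRG
open MulAction (stabilizer)
open Matrix (fromBlocks fromRows fromCols vecMul)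

variable {G : Type u} [Group G] {X : Type w} [MulAction G X]

/-- the class of `1 - N` vanishes for the located matrices with `N ^ n = 0` -/
def SN (Q : X → Prop) (r : X → X → Prop) (n : ℕ) : Prop :=
  ∀ (I : Type u) [Fintype I] [DecidableEq I] (x : I → X), (∀ i, Q (x i)) →
    ∀ N : Matrix I I (MonoidAlgebra ℤ G), Moves r x x N → N ^ n = 0 → cm (1 - N) = 0

/-- the relations of the cover -/
theorem rows_iff {R : Type*} [Ring R] {I F K L : Type*} [Fintype I] [Fintype F] [Fintype K]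
    [DecidableEq I] [DecidableEq F]
    (B : Matrix K I R) (Lam : Matrix F I R) (A : Matrix L (I ⊕ F) R) :
    Rows (fromBlocks B (0 : Matrix K F R) (-Lam) (1 : Matrix F F R)) A ↔
      Rows B (A * fromRows (1 : Matrix I I R) Lam) := by
  constructor
  · rintro ⟨w, rfl⟩
    refine ⟨w.toCols₁, ?_⟩
    rw [Matrix.mul_assoc, Matrix.fromBlocks_mul_fromRows, Matrix.mul_one, Matrix.zero_mul,
      add_zero, Matrix.mul_one, Matrix.one_mul, neg_add_cancel]
    conv_lhs => rw [← Matrix.fromCols_toCols w]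
    rw [Matrix.fromCols_mul_fromRows, Matrix.mul_zero, add_zero]
  · rintro ⟨w, hw⟩
    have h1 : A * fromRows (1 : Matrix I I R) Lam = A.toCols₁ + A.toCols₂ * Lam := by
      conv_lhs => rw [← Matrix.fromCols_toCols A]
      rw [Matrix.fromCols_mul_fromRows, Matrix.mul_one]
    refine ⟨fromCols w A.toCols₂, ?_⟩
    rw [Matrix.fromCols_mul_fromBlocks, Matrix.mul_zero, Matrix.mul_one, zero_add, ← hw, h1,
      Matrix.mul_neg, add_neg_cancel_right, Matrix.fromCols_toCols]

theorem moves_fromBlocks {Y : Type*} [MulAction G Y] {c : X → Y → Prop} {I J K L : Type*}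
    {x : I → X} {k : K → X} {y : J → Y} {l : L → Y} {A : Matrix I J (MonoidAlgebra ℤ G)}
    {B : Matrix I L (MonoidAlgebra ℤ G)} {C : Matrix K J (MonoidAlgebra ℤ G)}
    {D : Matrix K L (MonoidAlgebra ℤ G)} (hA : Moves c x y A) (hB : Moves c x l B)
    (hC : Moves c k y C) (hD : Moves c k l D) :
    Moves c (Sum.elim x k) (Sum.elim y l) (fromBlocks A B C D) := by
  rintro (i | i) (j | j) h hh
  · exact hA i j h hh
  · exact hB i j h hh
  · exact hC i j h hh
  · exact hD i j h hh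

/-- a located matrix, the rows of which are combinations of the rows of a located matrix -/
theorem Rows.lift {r : X → X → Prop} (hr : RInv G r) {L I J : Type*} [Fintype L] [Fintype I]
    [Fintype J] {l x : L → X} {z : I → X} {y : J → X} {A : Matrix L J (MonoidAlgebra ℤ G)}
    (hA : Moves r l y A) {E : Matrix I J (MonoidAlgebra ℤ G)}
    (hE : Moves (fun a b => b = a) z y E) (h : Rows E A) :
    ∃ θ : Matrix L I (MonoidAlgebra ℤ G), Moves r l z θ ∧ A = θ * E := by
  obtain ⟨w, hw⟩ := h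
  exact exists_located_lift hr hA hE fun i => ⟨w i, by
    rw [← Matrix.mul_apply_eq_vecMul, ← hw]⟩

/-- one step of Lemma Q -/
theorem step {Q : X → Prop} (hQ : ∀ (g : G) (z : X), Q z → Q (g • z)) {r : X → X → Prop}
    (hr : RInv G r) (hU : UWP r) {n : ℕ} (hS : SN (G := G) Q r (n + 1)) {I K : Type u} [Fintype I]
    [DecidableEq I] [Fintype K] [DecidableEq K] (x : I → X) (hx : ∀ i, Q (x i)) (z : K → X)
    (hz : ∀ i, Q (z i)) (B : Matrix K I (MonoidAlgebra ℤ G))
    (hB : Moves (fun a b => b = a) z x B) (φ : Matrix I I (MonoidAlgebra ℤ G))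
    (hφ : Moves r x x φ) (h1 : B * φ = 0) (h2 : Rows B (φ ^ (n + 1))) :
    ∃ (F : Type u) (_ : Fintype F) (_ : DecidableEq F) (f : F → X)
      (B1 : Matrix (K ⊕ F) (I ⊕ F) (MonoidAlgebra ℤ G))
      (h : Matrix (I ⊕ F) (K ⊕ F) (MonoidAlgebra ℤ G)), (∀ i, Q (f i)) ∧
      Moves r (Sum.elim z f) (Sum.elim z f) (B1 * h) ∧
      (∀ v : K ⊕ F → MonoidAlgebra ℤ G, vecMul v B1 = 0 ↔
        vecMul (v ∘ Sum.inl) B = 0 ∧ v ∘ Sum.inr = 0) ∧
      (B1 * h) ^ (n + 1) * B1 = 0 ∧ (cm (1 - B1 * h) = 0 → cm (1 - φ) = 0) := by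
  classical
  obtain ⟨F, _, _, f, Lam, ν', θ', hf, hLam, hν', hθ', h3, h4, h5⟩ :=
    cover hr hU hQ x hx φ hφ z B hB n x (1 : Matrix I I (MonoidAlgebra ℤ G))
      (moves_one x fun a => rfl) (by rw [Matrix.one_mul]; exact h2)
  rw [Matrix.one_mul] at h3
  let ν : Matrix (I ⊕ F) (I ⊕ F) (MonoidAlgebra ℤ G) := fromBlocks 0 θ' 0 ν'
  let La : Matrix (I ⊕ F) I (MonoidAlgebra ℤ G) := fromRows 1 Lam
  let ι : Matrix I (I ⊕ F) (MonoidAlgebra ℤ G) := fromCols 1 0
  have hι : ι * La = 1 := by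
    show fromCols _ _ * fromRows _ _ = 1
    rw [Matrix.fromCols_mul_fromRows, Matrix.one_mul, Matrix.zero_mul, add_zero]
  have hνm : Moves r (Sum.elim x f) (Sum.elim x f) ν :=
    moves_fromBlocks (moves_zero _ _ _) hθ' (moves_zero _ _ _) hν'
  have hLam' : Moves (fun a b => b = a) (Sum.elim x f) x La :=
    moves_fromRows (moves_one x fun a => rfl) hLam
  have hιm : Moves (fun a b => b = a) x (Sum.elim x f) ι :=
    moves_fromCols (moves_one x fun a => rfl) (moves_zero _ _ _)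
  have hνn : ν ^ (n + 1) = 0 := by
    have h6 : ∀ j : ℕ, ν ^ (j + 1) = fromBlocks 0 (θ' * ν' ^ j) 0 (ν' ^ (j + 1)) := by
      intro j
      induction j with
      | zero => rw [zero_add, pow_one, pow_one, pow_zero, Matrix.mul_one]
      | succ j ih =>
        rw [pow_succ, ih, Matrix.fromBlocks_multiply]
        simp only [Matrix.zero_mul, Matrix.mul_zero, zero_add, add_zero]
        rw [Matrix.mul_assoc, ← pow_succ, ← pow_succ]
    rw [h6, h5, Matrix.mul_zero, pow_succ, h5, Matrix.zero_mul, Matrix.fromBlocks_zero]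
  -- `ν La - La φ` has rows in the rows of `B`
  have hνLa : Rows B (ν * La - La * φ) := by
    have h6 : ν * La - La * φ = fromRows (-(φ - θ' * Lam)) (ν' * Lam - Lam * φ) := by
      show fromBlocks _ _ _ _ * fromRows _ _ - fromRows _ _ * φ = _
      rw [Matrix.fromBlocks_mul_fromRows, Matrix.fromRows_mul, Matrix.zero_mul, Matrix.zero_mul,
        zero_add, zero_add, Matrix.one_mul, neg_sub]
      funext i
      rcases i with i | i <;> rfl
    obtain ⟨w3, hw3⟩ := h3
    obtain ⟨w4, hw4⟩ := h4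
    rw [h6, hw3, hw4, ← Matrix.neg_mul, ← Matrix.fromRows_mul]
    exact ⟨_, rfl⟩
  let φ' : Matrix (I ⊕ F) (I ⊕ F) (MonoidAlgebra ℤ G) := La * φ * ι
  have hφ'm : Moves r (Sum.elim x f) (Sum.elim x f) φ' := by
    refine Moves.mul (Moves.mul hLam' hr hφ (e := r) fun a b t h1 h2 => ?_) rInv_eq hιm
      fun a b t h1 h2 => ?_
    · have h1' : b = a := h1
      rwa [← h1']
    · have h2' : t = b := h2
      rwa [h2']
  let δ : Matrix (I ⊕ F) (I ⊕ F) (MonoidAlgebra ℤ G) := ν - φ'
  let B1 : Matrix (K ⊕ F) (I ⊕ F) (MonoidAlgebra ℤ G) := fromBlocks B 0 (-Lam) 1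
  have hB1m : Moves (fun a b => b = a) (Sum.elim z f) (Sum.elim x f) B1 :=
    moves_fromBlocks hB (moves_zero _ _ _) hLam.neg (moves_one f fun a => rfl)
  have hδLa : Rows B (δ * La) := by
    have h6 : δ * La = ν * La - La * φ := by
      show (ν - La * φ * ι) * La = _
      rw [Matrix.sub_mul, Matrix.mul_assoc (La * φ), hι, Matrix.mul_one]
    rw [h6]
    exact hνLa
  obtain ⟨h, hh, hδ⟩ := Rows.lift (x := Sum.elim x f) hr (hνm.sub hφ'm) hB1m
    ((rows_iff B Lam δ).2 hδLa)
  have hδ' : δ = h * B1 := hδ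
  have hδφ : δ * φ' = 0 := by
    obtain ⟨w, hw⟩ := hδLa
    show δ * (La * φ * ι) = 0
    rw [← Matrix.mul_assoc, ← Matrix.mul_assoc, hw, Matrix.mul_assoc w, h1, Matrix.mul_zero,
      Matrix.zero_mul]
  have hprod : (1 - δ) * (1 - φ') = 1 - ν := by
    have h6 : (1 - δ) * (1 - φ') = 1 - δ - φ' + δ * φ' := by noncomm_ring
    rw [h6, hδφ, add_zero]
    show 1 - (ν - φ') - φ' = _
    abel
  -- `φ` is nilpotent
  have hφn : φ ^ (n + 2) = 0 := by
    obtain ⟨w, hw⟩ := h2
    rw [pow_succ, hw, Matrix.mul_assoc, h1, Matrix.mul_zero]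
  have hφ'u : IsUnit (1 - φ') := by
    have h6 : IsUnit (1 - φ * (ι * La)) := by
      rw [hι, Matrix.mul_one]
      exact IsNilpotent.isUnit_one_sub ⟨_, hφn⟩
    rw [← Matrix.mul_assoc] at h6
    have h7 := isUnit_one_sub_mul_comm (φ * ι) La h6
    rw [← Matrix.mul_assoc] at h7
    exact h7
  have hνu : IsUnit (1 - ν) := IsNilpotent.isUnit_one_sub ⟨_, hνn⟩
  have hδu : IsUnit (1 - δ) := by
    obtain ⟨u, hu⟩ := hφ'u
    have h6 : 1 - δ = (1 - ν) * (u⁻¹ : (Matrix (I ⊕ F) (I ⊕ F) (MonoidAlgebra ℤ G))ˣ) := by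
      rw [← hprod, ← hu, Matrix.mul_assoc, Units.mul_inv, Matrix.mul_one]
    rw [h6]
    exact hνu.mul u⁻¹.isUnit
  have hsum : cm (1 - δ) + cm (1 - φ') = 0 := by
    rw [← cm_mul hδu hφ'u, hprod]
    refine hS (I ⊕ F) (Sum.elim x f) ?_ ν hνm hνn
    rintro (i | i)
    · exact hx i
    · exact hf i
  have hφφ' : cm (1 - φ) = cm (1 - φ') := by
    have h6 : cm (1 - φ * (ι * La)) = cm (1 - La * (φ * ι)) := by
      rw [← Matrix.mul_assoc]
      exact cm_one_sub_mul_comm (φ * ι) La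
    rw [hι, Matrix.mul_one, ← Matrix.mul_assoc] at h6
    exact h6
  -- the action of `δ` on the rows of `B1`
  have hB1La : B1 * La = fromRows B 0 := by
    show fromBlocks _ _ _ _ * fromRows _ _ = _
    rw [Matrix.fromBlocks_mul_fromRows, Matrix.mul_one, Matrix.zero_mul, add_zero,
      Matrix.mul_one, Matrix.one_mul, neg_add_cancel]
  have hB1φ : B1 * φ' = 0 := by
    show B1 * (La * φ * ι) = 0
    rw [← Matrix.mul_assoc, ← Matrix.mul_assoc, hB1La, Matrix.fromRows_mul, h1,
      Matrix.zero_mul, Matrix.fromRows_zero, Matrix.zero_mul]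
  have hB1δ : B1 * δ = B1 * ν := by
    show B1 * (ν - φ') = _
    rw [Matrix.mul_sub, hB1φ, sub_zero]
  obtain ⟨η, hη⟩ : Rows B1 (B1 * ν) := by
    refine (rows_iff B Lam _).2 ?_
    have h6 : B1 * ν * fromRows (1 : Matrix I I (MonoidAlgebra ℤ G)) Lam =
        B1 * (ν * La - La * φ) + fromRows B 0 * φ := by
      show B1 * ν * La = _
      rw [Matrix.mul_sub, ← Matrix.mul_assoc B1 La, hB1La, Matrix.mul_assoc]
      abel
    have h7 : fromRows B (0 : Matrix F I (MonoidAlgebra ℤ G)) * φ = 0 := by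
      rw [Matrix.fromRows_mul, h1, Matrix.zero_mul, Matrix.fromRows_zero]
    rw [h6, h7, add_zero]
    exact hνLa.left B1
  have hpow : ∀ j : ℕ, B1 * δ ^ j = η ^ j * B1 ∧ B1 * ν ^ j = η ^ j * B1 := by
    intro j
    induction j with
    | zero => simp
    | succ j ih =>
      refine ⟨?_, ?_⟩
      · rw [pow_succ, ← Matrix.mul_assoc, ih.1, Matrix.mul_assoc, hB1δ, hη, ← Matrix.mul_assoc,
          ← pow_succ]
      · rw [pow_succ, ← Matrix.mul_assoc, ih.2, Matrix.mul_assoc, hη, ← Matrix.mul_assoc,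
          ← pow_succ]
  refine ⟨F, inferInstance, inferInstance, f, B1, h, hf, ?_, ?_, ?_, ?_⟩
  · refine hB1m.mul hr hh fun a b t h1 h2 => ?_
    have h1' : b = a := h1
    rwa [← h1']
  · intro v
    have h6 : vecMul v B1 = Sum.elim (vecMul (v ∘ Sum.inl) B + vecMul (v ∘ Sum.inr) (-Lam))
        (v ∘ Sum.inr) := by
      show vecMul v (fromBlocks _ _ _ _) = _
      rw [Matrix.vecMul_fromBlocks, Matrix.vecMul_zero, Matrix.vecMul_one, zero_add]
    rw [h6]
    constructor
    · intro h7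
      have h8 : v ∘ Sum.inr = 0 := by
        funext i
        exact congrFun h7 (Sum.inr i)
      refine ⟨?_, h8⟩
      funext i
      have h9 := congrFun h7 (Sum.inl i)
      rw [h8, Matrix.zero_vecMul, add_zero] at h9
      exact h9
    · rintro ⟨h7, h8⟩
      rw [h7, h8, Matrix.zero_vecMul, add_zero]
      funext i
      rcases i with i | i <;> rfl
  · have h6 : ∀ j : ℕ, (B1 * h) ^ j * B1 = B1 * δ ^ j := by
      intro j
      induction j with
      | zero => simp
      | succ j ih =>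
        rw [pow_succ', Matrix.mul_assoc, ih, ← Matrix.mul_assoc, Matrix.mul_assoc B1 h B1, ← hδ',
          Matrix.mul_assoc, ← pow_succ']
    rw [h6, (hpow (n + 1)).1, ← (hpow (n + 1)).2, hνn, Matrix.mul_zero]
  · intro h6
    have h7 : cm (1 - δ) = 0 := by
      rw [hδ', cm_one_sub_mul_comm, h6]
    rw [hφφ']
    rw [h7, zero_add] at hsum
    exact hsum

end Pool.Agent.Lib.NilU
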